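import Pool.Agent.Run7.h258.T2

set_option autoImplicit false

universe u

/-- Let `R` be right Kasch and right generalized `R`-tight. If `R` satisfies the ascending or the
descending chain condition on two-sided ideals, then the right socle of `R` is finitely generated
and essential as a right ideal. -/
theorem Pool.Agent.Results.MP_9c7981_al.ChainConditions.result :
    ∀ (R : Type u) [Ring R],
      (∀ (M : Type u) [AddCommGroup M] [Module Rᵐᵒᵖ M], IsSimpleModule Rᵐᵒᵖ M →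
          ∃ f : M →ₗ[Rᵐᵒᵖ] R, Function.Injective f) →
      (∀ (E : Type u) [AddCommGroup E] [Module Rᵐᵒᵖ E], Module.Injective Rᵐᵒᵖ E →
          ∀ ι : R →ₗ[Rᵐᵒᵖ] E, Function.Injective ι →
          (∀ N : Submodule Rᵐᵒᵖ E, N ≠ ⊥ → N ⊓ LinearMap.range ι ≠ ⊥) →
          ∀ x : E, ∃ (I : Type u) (f : ↥(Submodule.span Rᵐᵒᵖ {x}) →ₗ[Rᵐᵒᵖ] (I →₀ R)),
            Function.Injective f) →
      (WellFoundedGT (TwoSidedIdeal R) ∨ WellFoundedLT (TwoSidedIdeal R)) →
      (sSup {J : Submodule Rᵐᵒᵖ R | IsAtom J}).FG ∧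
        ∀ I : Submodule Rᵐᵒᵖ R, I ≠ ⊥ → I ⊓ sSup {J : Submodule Rᵐᵒᵖ R | IsAtom J} ≠ ⊥ :=
  fun R _ hK hT h => Run7.h258.main_T2 (R := R) hK hT h
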