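import Pool.Agent.Run7.h258.T1

set_option autoImplicit false

universe u

/-- Let `R` be right Kasch and right generalized `R`-tight, with right socle `S`, and suppose that
every finitely generated left ideal `L` of `R` whose right annihilator is zero satisfies
`L + l(S) = R`, where `l(S)` is the left annihilator of `S` (this is the case when `R` is left
Kasch, in particular when `R` is commutative, and when `R / l(S)` is von Neumann regular).
Then `S` is finitely generated and essential as a right ideal. -/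
theorem Pool.Agent.Results.MP_9c7981_al.FinGenLeftIdeals.result :
    ∀ (R : Type u) [Ring R],
      (∀ (M : Type u) [AddCommGroup M] [Module Rᵐᵒᵖ M], IsSimpleModule Rᵐᵒᵖ M →
          ∃ f : M →ₗ[Rᵐᵒᵖ] R, Function.Injective f) →
      (∀ (E : Type u) [AddCommGroup E] [Module Rᵐᵒᵖ E], Module.Injective Rᵐᵒᵖ E →
          ∀ ι : R →ₗ[Rᵐᵒᵖ] E, Function.Injective ι →
          (∀ N : Submodule Rᵐᵒᵖ E, N ≠ ⊥ → N ⊓ LinearMap.range ι ≠ ⊥) →
          ∀ x : E, ∃ (I : Type u) (f : ↥(Submodule.span Rᵐᵒᵖ {x}) →ₗ[Rᵐᵒᵖ] (I →₀ R)),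
            Function.Injective f) →
      (∀ F : Finset R, (∀ x : R, (∀ f ∈ F, f * x = 0) → x = 0) →
          ∃ z : R, (∀ s ∈ sSup {J : Submodule Rᵐᵒᵖ R | IsAtom J}, z * s = 0) ∧
            1 - z ∈ Ideal.span (F : Set R)) →
      (sSup {J : Submodule Rᵐᵒᵖ R | IsAtom J}).FG ∧
        ∀ I : Submodule Rᵐᵒᵖ R, I ≠ ⊥ → I ⊓ sSup {J : Submodule Rᵐᵒᵖ R | IsAtom J} ≠ ⊥ :=
  fun R _ hK hT hL => Run7.h258.main_T1 (R := R) hK hT hL
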