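import Pool.Agent.Run7.h258.T3a

set_option autoImplicit false

universe u

namespace Pool.Agent.Results.MP_9c7981_al.NilModSingular

/-- `z` belongs to the right singular ideal `Z(R_R)`: it annihilates an essential right ideal
from the left. -/
def InSing {R : Type u} [Ring R] (z : R) : Prop :=
  ∃ I : Submodule Rᵐᵒᵖ R, (∀ N : Submodule Rᵐᵒᵖ R, N ≠ ⊥ → N ⊓ I ≠ ⊥) ∧ ∀ x ∈ I, z * x = 0

/-- The image of `a` in `R/W` lies in the Jacobson radical of `R/W`: `a` lies in every maximal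
right ideal that contains `W`. -/
def InRad {R : Type u} [Ring R] (W : TwoSidedIdeal R) (a : R) : Prop :=
  ∀ m : Submodule Rᵐᵒᵖ R, IsCoatom m → (∀ x ∈ W, x ∈ m) → a ∈ m

end Pool.Agent.Results.MP_9c7981_al.NilModSingular

open Pool.Agent.Results.MP_9c7981_al.NilModSingular in
/-- Let `R` be right Kasch and right generalized `R`-tight, with right socle `S`, and let `W` be a
two-sided ideal containing the right singular ideal. Suppose that up to isomorphism there are only
finitely many simple right modules annihilated by `W`, and that every `a` in `R` whose image in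
`R/W` lies in the Jacobson radical acts locally nilpotently on `S` by left multiplication (for
instance because the Jacobson radical of `R/W` is nil and `W` annihilates `S`, e.g. `W` is the
right singular ideal or the left annihilator of `S`). Then `S` is finitely generated and essential
as a right ideal. -/
theorem Pool.Agent.Results.MP_9c7981_al.NilModSingular.result :
    ∀ (R : Type u) [Ring R],
      (∀ (M : Type u) [AddCommGroup M] [Module Rᵐᵒᵖ M], IsSimpleModule Rᵐᵒᵖ M →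
          ∃ f : M →ₗ[Rᵐᵒᵖ] R, Function.Injective f) →
      (∀ (E : Type u) [AddCommGroup E] [Module Rᵐᵒᵖ E], Module.Injective Rᵐᵒᵖ E →
          ∀ ι : R →ₗ[Rᵐᵒᵖ] E, Function.Injective ι →
          (∀ N : Submodule Rᵐᵒᵖ E, N ≠ ⊥ → N ⊓ LinearMap.range ι ≠ ⊥) →
          ∀ x : E, ∃ (I : Type u) (f : ↥(Submodule.span Rᵐᵒᵖ {x}) →ₗ[Rᵐᵒᵖ] (I →₀ R)),
            Function.Injective f) →
      ∀ W : TwoSidedIdeal R, (∀ z : R, InSing z → z ∈ W) →
      (∃ (n : ℕ) (T : Fin n → Type u) (_ : ∀ i, AddCommGroup (T i))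
          (_ : ∀ i, Module Rᵐᵒᵖ (T i)),
        ∀ (M : Type u) [AddCommGroup M] [Module Rᵐᵒᵖ M], IsSimpleModule Rᵐᵒᵖ M →
          (∀ (x : M), ∀ w ∈ W, MulOpposite.op w • x = 0) → ∃ i, Nonempty (M ≃ₗ[Rᵐᵒᵖ] T i)) →
      (∀ a : R, InRad W a →
          ∀ s ∈ sSup {J : Submodule Rᵐᵒᵖ R | IsAtom J}, ∃ k : ℕ, a ^ k * s = 0) →
      (sSup {J : Submodule Rᵐᵒᵖ R | IsAtom J}).FG ∧
        ∀ I : Submodule Rᵐᵒᵖ R, I ≠ ⊥ → I ⊓ sSup {J : Submodule Rᵐᵒᵖ R | IsAtom J} ≠ ⊥ :=
  fun R _ hK hT W hZ hfin hnil => Run7.h258.main_T3a (R := R) hK hT W hZ hfin hnil
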