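import Pool.Agent.Run7.h258.T3b

set_option autoImplicit false

universe u

namespace Pool.Agent.Results.MP_9c7981_al.RadicalAnnihilators

/-- `z` belongs to the right singular ideal `Z(R_R)`: it annihilates an essential right ideal
from the left. -/
def InSing {R : Type u} [Ring R] (z : R) : Prop :=
  ∃ I : Submodule Rᵐᵒᵖ R, (∀ N : Submodule Rᵐᵒᵖ R, N ≠ ⊥ → N ⊓ I ≠ ⊥) ∧ ∀ x ∈ I, z * x = 0

/-- The image of `a` in `R/I` lies in the Jacobson radical of `R/I`: `a` lies in every maximal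
right ideal that contains `I`. -/
def InRad {R : Type u} [Ring R] (I : TwoSidedIdeal R) (a : R) : Prop :=
  ∀ m : Submodule Rᵐᵒᵖ R, IsCoatom m → (∀ x ∈ I, x ∈ m) → a ∈ m

end Pool.Agent.Results.MP_9c7981_al.RadicalAnnihilators

open Pool.Agent.Results.MP_9c7981_al.RadicalAnnihilators in
/-- Let `n` be a natural number or infinity. Let `R` be right Kasch and such that every cyclic
submodule of the injective hull of `R_R` embeds in `R ^ m` for some finite `m ≤ n`. Let `S` be the
right socle of `R`. Suppose that for every proper two-sided ideal `I` containing the left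
annihilator of `S`, every set of at most `n` elements of the Jacobson radical of `R/I` has a
nonzero common right annihilator in `R/I`, and that there is a two-sided ideal `W` containing the
right singular ideal such that all elements of `R` mapping into the Jacobson radical of `R/W` act
locally nilpotently on `S`. Then `S` is finitely generated and essential as a right ideal. -/
theorem Pool.Agent.Results.MP_9c7981_al.RadicalAnnihilators.result :
    ∀ (n : ℕ∞) (R : Type u) [Ring R],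
      (∀ (M : Type u) [AddCommGroup M] [Module Rᵐᵒᵖ M], IsSimpleModule Rᵐᵒᵖ M →
          ∃ f : M →ₗ[Rᵐᵒᵖ] R, Function.Injective f) →
      (∀ (E : Type u) [AddCommGroup E] [Module Rᵐᵒᵖ E], Module.Injective Rᵐᵒᵖ E →
          ∀ ι : R →ₗ[Rᵐᵒᵖ] E, Function.Injective ι →
          (∀ N : Submodule Rᵐᵒᵖ E, N ≠ ⊥ → N ⊓ LinearMap.range ι ≠ ⊥) →
          ∀ x : E, ∃ m : ℕ, (m : ℕ∞) ≤ n ∧
            ∃ f : ↥(Submodule.span Rᵐᵒᵖ {x}) →ₗ[Rᵐᵒᵖ] (Fin m → R), Function.Injective f) →
      (∀ I : TwoSidedIdeal R,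
          (∀ z : R, (∀ s ∈ sSup {J : Submodule Rᵐᵒᵖ R | IsAtom J}, z * s = 0) → z ∈ I) →
          (1 : R) ∉ I →
          ∀ F : Finset R, (F.card : ℕ∞) ≤ n → (∀ a ∈ F, InRad I a) →
            ∃ t : R, t ∉ I ∧ ∀ a ∈ F, a * t ∈ I) →
      ∀ W : TwoSidedIdeal R, (∀ z : R, InSing z → z ∈ W) →
      (∀ a : R, InRad W a →
          ∀ s ∈ sSup {J : Submodule Rᵐᵒᵖ R | IsAtom J}, ∃ k : ℕ, a ^ k * s = 0) →
      (sSup {J : Submodule Rᵐᵒᵖ R | IsAtom J}).FG ∧
        ∀ I : Submodule Rᵐᵒᵖ R, I ≠ ⊥ → I ⊓ sSup {J : Submodule Rᵐᵒᵖ R | IsAtom J} ≠ ⊥ :=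
  fun _ R _ hK hT hann W hZ hnil => Run7.h258.main_T3b (R := R) hK hT hann W hZ hnil
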